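import Pool.Agent.MDG.Stmts

/-!
# Squad MDG, row ORD: degeneracy order
-/

set_option autoImplicit false

open Finset

namespace Pool.Agent.MDG.H14

open Classical in
/-- The order for subsets, by induction on the cardinality. -/
theorem ord_aux (N : Type) [Fintype N] (d : N → N → ℕ) (K : ℕ)
    (h : ∀ X : Finset N, X.Nonempty → ∃ w ∈ X, ∑ v ∈ X, d w v < K) :
    ∀ (m : ℕ) (X : Finset N), X.card = m →
      ∃ ord : N → ℕ, Set.InjOn ord (X : Set N) ∧
        ∀ w ∈ X, ∑ v ∈ X.filter (fun v => ord w < ord v), d w v < K := by
  intro m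
  induction m with
  | zero =>
    intro X hX
    have hX0 : X = ∅ := Finset.card_eq_zero.mp hX
    subst hX0
    exact ⟨fun _ => 0, by simp, by simp⟩
  | succ m ih =>
    intro X hX
    have hne : X.Nonempty := by
      rw [← Finset.card_pos]; omega
    obtain ⟨w0, hw0, hlt⟩ := h X hne
    obtain ⟨o, ho1, ho2⟩ := ih (X.erase w0) (by rw [Finset.card_erase_of_mem hw0]; omega)
    refine ⟨fun v => if v = w0 then 0 else o v + 1, ?_, ?_⟩
    · intro a ha b hb hab
      by_cases h1 : a = w0 <;> by_cases h2 : b = w0
      · rw [h1, h2]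
      · simp [h1, h2] at hab
      · simp [h1, h2] at hab
      · simp only [h1, h2, if_false] at hab
        apply ho1
        · simpa [h1] using ha
        · simpa [h2] using hb
        · omega
    · intro w hw
      by_cases h1 : w = w0
      · subst h1
        refine lt_of_le_of_lt ?_ hlt
        exact Finset.sum_le_sum_of_subset (Finset.filter_subset _ _)
      · have hw' : w ∈ X.erase w0 := Finset.mem_erase.mpr ⟨h1, hw⟩
        have hk := ho2 w hw'
        refine lt_of_le_of_lt ?_ hk
        apply Finset.sum_le_sum_of_subset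
        intro v hv
        rw [Finset.mem_filter] at hv
        obtain ⟨hvX, hvo⟩ := hv
        by_cases h2 : v = w0
        · simp [h1, h2] at hvo
        · simp only [h1, h2, if_false] at hvo
          rw [Finset.mem_filter, Finset.mem_erase]
          exact ⟨⟨h2, hvX⟩, by omega⟩

theorem ord : OrdStmt := by
  intro N _ d K h
  obtain ⟨o, ho1, ho2⟩ := ord_aux N d K h (univ : Finset N).card univ rfl
  refine ⟨o, ?_, ?_⟩
  · intro a b hab
    exact ho1 (by simp) (by simp) hab
  · intro w
    exact ho2 w (mem_univ w)

end Pool.Agent.MDG.H14
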